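import Pool.Agent.Lib.MP_3184af_co.IsoGrp

/-!
`s_{k exp G}(G) = D(G) + k exp G - 1` for every finite abelian group `G` as soon as
`k exp G > (D(G) - 1) (Ω |G| + Ω (exp G) - 1)`.
-/

set_option autoImplicit false

namespace Pool.Agent.Results.MP_3184af_co.AllGroups

theorem result (G : Type) [AddCommGroup G] [Fintype G] (k d : ℕ)
    (hd : IsLeast
      {ℓ : ℕ | ∀ f : Fin ℓ → G, ∃ I : Finset (Fin ℓ), I.Nonempty ∧ ∑ i ∈ I, f i = 0} d)
    (hk : (d - 1) * (ArithmeticFunction.cardFactors (Fintype.card G) +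
      ArithmeticFunction.cardFactors (AddMonoid.exponent G) - 1) < k * AddMonoid.exponent G) :
    IsLeast {ℓ : ℕ | ∀ f : Fin ℓ → G, ∃ I : Finset (Fin ℓ),
        I.card = k * AddMonoid.exponent G ∧ ∑ i ∈ I, f i = 0}
      (d + k * AddMonoid.exponent G - 1) :=
  Pool.Agent.Lib.MP_3184af_co.Iso.mainI hd (by rwa [Nat.card_eq_fintype_card])

end Pool.Agent.Results.MP_3184af_co.AllGroups
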