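import Pool.Agent.Lib.MP_3184af_co.BRMain

/-!
For every `r` there is `c` such that `s_{k exp G}(G) = D(G) + k exp G - 1` for all `k ≥ c` and all
finite abelian groups `G` generated by at most `r` elements.
-/

set_option autoImplicit false

namespace Pool.Agent.Results.MP_3184af_co.BoundedRank

open Pool.Agent.Lib.MP_3184af_co

theorem result (r : ℕ) : ∃ c : ℕ, ∀ (G : Type) [AddCommGroup G] [Fintype G] (s : Finset G),
    s.card ≤ r → AddSubgroup.closure (s : Set G) = ⊤ → ∀ k d : ℕ, c ≤ k →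
      IsLeast {ℓ : ℕ | ∀ f : Fin ℓ → G, ∃ I : Finset (Fin ℓ), I.Nonempty ∧ ∑ i ∈ I, f i = 0} d →
      IsLeast {ℓ : ℕ | ∀ f : Fin ℓ → G, ∃ I : Finset (Fin ℓ),
          I.card = k * AddMonoid.exponent G ∧ ∑ i ∈ I, f i = 0}
        (d + k * AddMonoid.exponent G - 1) := by
  obtain ⟨c, hc⟩ := BR.upper' r.succ_pos
  refine ⟨c + 1, fun G _ _ s hs hg k d hk hd =>
    ⟨hc G (BR.card_le_of_gen (hs.trans r.le_succ) hg) k d (by omega) hd, fun ℓ h => ?_⟩⟩
  have hn : 0 < k * AddMonoid.exponent G :=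
    Nat.mul_pos (by omega) AddMonoid.ExponentExists.of_finite.exponent_pos
  have hd0 := (addOrderOf_pos (0 : G)).trans_le (BR.order_le hd.1 0)
  have := lower (d := d - 1) hn (fun h' => by have := hd.2 h'; omega) h
  omega

end Pool.Agent.Results.MP_3184af_co.BoundedRank
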