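import Pool.Agent.Lib.MP_3184af_co.TateG.Gap

/-!
For a finite abelian `p`-group `G` with exponent `q` and Davenport constant `d`, one has
`s_{k q}(G) ≤ d + k q - 1 + q / p` whenever `d - 1 ≤ k q`.
-/

namespace Pool.Agent.Results.MP_3184af_co.PGroupsGap

open Pool.Agent.Lib.MP_3184af_co

theorem result (p l : ℕ) (hp : p.Prime) (G : Type) [AddCommGroup G] [Fintype G]
    (hl : Fintype.card G = p ^ l) (k d : ℕ)
    (hd : IsLeast
      {ℓ : ℕ | ∀ f : Fin ℓ → G, ∃ I : Finset (Fin ℓ), I.Nonempty ∧ ∑ i ∈ I, f i = 0} d)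
    (hk : d ≤ k * AddMonoid.exponent G + 1) :
    d + k * AddMonoid.exponent G - 1 + AddMonoid.exponent G / p ∈
      {ℓ : ℕ | ∀ f : Fin ℓ → G, ∃ I : Finset (Fin ℓ),
        I.card = k * AddMonoid.exponent G ∧ ∑ i ∈ I, f i = 0} := by
  obtain ⟨e, -, he⟩ := (Nat.dvd_prime_pow hp).1 (hl ▸ AddGroup.exponent_dvd_card (G := G))
  have hG : ∀ x : G, p ^ e • x = 0 := fun x => he ▸ AddMonoid.exponent_nsmul_eq_zero x
  rw [he] at hk ⊢
  rcases e with _ | n
  · have h0 : ∀ x : G, x = 0 := fun x => by simpa using hG x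
    have h1 : d = 1 := by
      refine le_antisymm (hd.2 fun f => ⟨{0}, by simp, h0 _⟩) (Nat.pos_of_ne_zero ?_)
      rintro rfl
      obtain ⟨I, ⟨i, -⟩, -⟩ := hd.1 fun _ => 0
      exact i.elim0
    rw [h1, pow_zero, mul_one, Nat.add_sub_cancel_left, Nat.div_eq_of_lt hp.one_lt, add_zero]
    exact fun f => ⟨Finset.univ, by simp, h0 _⟩
  · rw [pow_succ, Nat.mul_div_cancel _ hp.pos, ← pow_succ]
    exact TateG.pgroup_gap hp hG hd hk

end Pool.Agent.Results.MP_3184af_co.PGroupsGap
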